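import Pool.Agent.Lib.MP_cd28a7_co.Ten
import Pool.Agent.Lib.MP_cd28a7_co.Small

set_option autoImplicit false

namespace Pool.Agent.Results.MP_cd28a7_co.FourPagesTenVertices

/-- `f` is a circular layout of `G` without three pairwise crossing edges. -/
def Quasi {n : ℕ} (G : SimpleGraph (Fin n)) (f : Fin n → ℕ) : Prop :=
  Function.Injective f ∧
    ∀ a b c d e g : Fin n, G.Adj a b → G.Adj c d → G.Adj e g →
      f a < f b → f c < f d → f e < f g →
      ¬ (((f a < f c ∧ f c < f b ∧ f b < f d) ∨ (f c < f a ∧ f a < f d ∧ f d < f b)) ∧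
         ((f a < f e ∧ f e < f b ∧ f b < f g) ∨ (f e < f a ∧ f a < f g ∧ f g < f b)) ∧
         ((f c < f e ∧ f e < f d ∧ f d < f g) ∨ (f e < f c ∧ f c < f g ∧ f g < f d)))

/-- `G` has a book embedding with `k` pages. -/
def Book {n : ℕ} (G : SimpleGraph (Fin n)) (k : ℕ) : Prop :=
  ∃ f : Fin n → ℕ, Function.Injective f ∧
    ∃ p : Fin n → Fin n → Fin k, ∀ a b c d : Fin n, G.Adj a b → G.Adj c d →
      f a < f c → f c < f b → f b < f d → p a b ≠ p c d

/-- Every outer quasi-planar graph with at most nine vertices has a 3-page book embedding; for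
every `n ≥ 10` there is an outer quasi-planar graph with `n` vertices which has a 4-page book
embedding but no 3-page book embedding. -/
theorem result :
    (∀ n : ℕ, n ≤ 9 → ∀ G : SimpleGraph (Fin n), (∃ f : Fin n → ℕ, Quasi G f) → Book G 3) ∧
      (∀ n : ℕ, 10 ≤ n → ∃ G : SimpleGraph (Fin n),
        (∃ f : Fin n → ℕ, Quasi G f) ∧ Book G 4 ∧ ¬ Book G 3) :=
  ⟨fun n hn G hG => Pool.Agent.Lib.MP_cd28a7_co.small_three n hn G hG,
    fun n hn => ⟨Pool.Agent.Lib.MP_cd28a7_co.T n, Pool.Agent.Lib.MP_cd28a7_co.T_oqp n,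
      Pool.Agent.Lib.MP_cd28a7_co.T_four n, Pool.Agent.Lib.MP_cd28a7_co.T_not_three n hn⟩⟩

end Pool.Agent.Results.MP_cd28a7_co.FourPagesTenVertices
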