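import Pool.Agent.Lib.MP_cd28a7_co.W.Main

set_option autoImplicit false

namespace Pool.Agent.Results.MP_cd28a7_co.WitnessingLayouts

/-- `f` is a circular layout of `G` without three pairwise crossing edges. -/
def Quasi {n : ℕ} (G : SimpleGraph (Fin n)) (f : Fin n → ℕ) : Prop :=
  Function.Injective f ∧
    ∀ a b c d e g : Fin n, G.Adj a b → G.Adj c d → G.Adj e g →
      f a < f b → f c < f d → f e < f g →
      ¬ (((f a < f c ∧ f c < f b ∧ f b < f d) ∨ (f c < f a ∧ f a < f d ∧ f d < f b)) ∧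
         ((f a < f e ∧ f e < f b ∧ f b < f g) ∨ (f e < f a ∧ f a < f g ∧ f g < f b)) ∧
         ((f c < f e ∧ f e < f d ∧ f d < f g) ∨ (f e < f c ∧ f c < f g ∧ f g < f d)))

/-- `G` has a book embedding with `k` pages and vertex order `f`. -/
def Pages {n : ℕ} (G : SimpleGraph (Fin n)) (f : Fin n → ℕ) (k : ℕ) : Prop :=
  Function.Injective f ∧
    ∃ p : Fin n → Fin n → Fin k, ∀ a b c d : Fin n, G.Adj a b → G.Adj c d →
      f a < f c → f c < f b → f b < f d → p a b ≠ p c d

/-- For every `n` there is a graph `G` on `n` vertices which is outer quasi-planar, with five pages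
in a witnessing layout, and has a 4-page book embedding, such that the vertex order of every 4-page
book embedding of `G` contains `⌊n / 345⌋` pairwise disjoint triples of pairwise crossing edges
(no two of the triples share a vertex). So, for `n ≥ 345`, every layout which witnesses that `G` is
outer quasi-planar needs five pages. -/
theorem result : ∀ n : ℕ, ∃ G : SimpleGraph (Fin n),
    (∃ f : Fin n → ℕ, Quasi G f ∧ Pages G f 5) ∧ (∃ f : Fin n → ℕ, Pages G f 4) ∧
    ∀ f : Fin n → ℕ, Pages G f 4 → ∃ t : Fin (n / 345) → Fin 6 → Fin n,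
      (∀ i j k l, t i k = t j l → i = j ∧ k = l) ∧
      ∀ i, G.Adj (t i 0) (t i 3) ∧ G.Adj (t i 1) (t i 4) ∧ G.Adj (t i 2) (t i 5) ∧
        f (t i 0) < f (t i 1) ∧ f (t i 1) < f (t i 2) ∧ f (t i 2) < f (t i 3) ∧
        f (t i 3) < f (t i 4) ∧ f (t i 4) < f (t i 5) := by
  intro n
  refine ⟨Pool.Agent.Lib.MP_cd28a7_co.W.GT n, ⟨Fin.val, ⟨Fin.val_injective, ?_⟩,
    Fin.val_injective, ?_⟩, ⟨fun v => Pool.Agent.Lib.MP_cd28a7_co.W.posG v, ?_, ?_⟩, ?_⟩
  · intro a b c d e g t1 t2 t3 h1 h2 h3
    have key := @Pool.Agent.Lib.MP_cd28a7_co.W.GT_nat n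
    rintro ⟨q1 | q1, q2 | q2, q3 | q3⟩
    · exact key a b c d e g t1 t2 t3 (by omega) (by omega) (by omega) (by omega) (by omega)
    · exact key a b e g c d t1 t3 t2 (by omega) (by omega) (by omega) (by omega) (by omega)
    · omega
    · exact key e g a b c d t3 t1 t2 (by omega) (by omega) (by omega) (by omega) (by omega)
    · exact key c d a b e g t2 t1 t3 (by omega) (by omega) (by omega) (by omega) (by omega)
    · omega
    · exact key c d e g a b t2 t3 t1 (by omega) (by omega) (by omega) (by omega) (by omega)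
    · exact key e g c d a b t3 t2 t1 (by omega) (by omega) (by omega) (by omega) (by omega)
  · exact Pool.Agent.Lib.MP_cd28a7_co.W.GT_five n
  · intro u v h
    exact Fin.ext (Pool.Agent.Lib.MP_cd28a7_co.W.posG_inj h)
  · exact Pool.Agent.Lib.MP_cd28a7_co.W.GT_four n
  · rintro f ⟨hf, p, hp⟩
    exact Pool.Agent.Lib.MP_cd28a7_co.W.many_triples f hf p hp

end Pool.Agent.Results.MP_cd28a7_co.WitnessingLayouts
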